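import Pool.Agent.V11191.Span.Prob3

/-!
# The laws of the three span-set statistics of Brownian motion are diffuse

`S_1` (Lebesgue measure of the span set), `T_1` (first positive time not in the span set) and
`R` (length of the longest complete excursion from all levels up to time one) all have
laws without atoms.
-/

open MeasureTheory ProbabilityTheory
open scoped NNReal

namespace Pool.Agent.Results.MP_097655_pr.Diffuse

/-- The span set `{t - s : 0 ≤ s ≤ t ≤ 1, w t = w s}` of a path `w`. -/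
def spanSet (w : ℝ → ℝ) : Set ℝ :=
  {u | ∃ s t : ℝ, 0 ≤ s ∧ s ≤ t ∧ t ≤ 1 ∧ w s = w t ∧ u = t - s}

/-- `S_1`, the Lebesgue measure of the span set. -/
noncomputable def S₁ (w : ℝ → ℝ) : ℝ := (volume (spanSet w)).toReal

/-- `T_1 = inf {t > 0 : t ∉ Sp}`. -/
noncomputable def T₁ (w : ℝ → ℝ) : ℝ := sInf {t : ℝ | 0 < t ∧ t ∉ spanSet w}

/-- `R`, the supremum of the lengths `q - p` of the complete excursions `(p,q)`, from any level,
with `0 ≤ p < q ≤ 1`: `w p = w q`, and `w u ≠ w p` for all `u` in `(p,q)`. -/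
noncomputable def R (w : ℝ → ℝ) : ℝ :=
  sSup {l : ℝ | ∃ p q : ℝ, 0 ≤ p ∧ p < q ∧ q ≤ 1 ∧ w p = w q ∧
    (∀ u, p < u → u < q → w u ≠ w p) ∧ l = q - p}

/-- The path of `B` at `ω`, with real time `t` (only `t ∈ [0,1]` matters). -/
def path {Ω : Type*} (B : ℝ≥0 → Ω → ℝ) (ω : Ω) (t : ℝ) : ℝ := B t.toNNReal ω

/-- For every real Brownian motion `B` (Mathlib's `IsBrownianReal`), on any probability space,
each of `S_1`, `T_1`, `R` is a random variable whose law has no atoms. -/
theorem result {Ω : Type*} [MeasurableSpace Ω] (P : Measure Ω) (B : ℝ≥0 → Ω → ℝ)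
    (hB : IsBrownianReal B P) :
    (AEMeasurable (fun ω => S₁ (path B ω)) P ∧ ∀ c : ℝ, P {ω | S₁ (path B ω) = c} = 0) ∧
    (AEMeasurable (fun ω => T₁ (path B ω)) P ∧ ∀ c : ℝ, P {ω | T₁ (path B ω) = c} = 0) ∧
    (AEMeasurable (fun ω => R (path B ω)) P ∧ ∀ c : ℝ, P {ω | R (path B ω) = c} = 0) :=
  Pool.Agent.V11191.Span.main hB

end Pool.Agent.Results.MP_097655_pr.Diffuse
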